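import Pool.Agent.Helper32_OMP.Stmts
import Pool.Agent.Helper6_Mono.Van

/-!
# JY0: the jet space
-/

set_option autoImplicit false
set_option linter.unusedVariables false

namespace Pool.Agent.Helper32_OMP.H93

open PowerSeries Finset Pool.Agent.Helper6_Mono

theorem fser_lp0 {k : Type} [Field k] {σ ι : Type} [Fintype ι] (f : ι → MvPolynomial σ k)
    (a : ι → ℕ) (c : k) (m : ℕ) (hm : m ≠ 0) {S : Type} [CommRing S] [Algebra k S]
    (γ : σ → S⟦X⟧) :
    (lp0 f a c m hm).fser γ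
      = MvPolynomial.aeval γ (MvPolynomial.C c * ∏ i, f i ^ a i) := by
  have h1 : ∀ i, evt (MvPolynomial.rename some (f i)) γ = MvPolynomial.aeval γ (f i) := by
    intro i
    rw [evt, MvPolynomial.aeval_rename]
    rfl
  show C (algebraMap k S c) * ∏ i, evt (MvPolynomial.rename some (f i)) γ ^ a i = _
  have h2 : ∏ i, evt (MvPolynomial.rename some (f i)) γ ^ a i
      = MvPolynomial.aeval γ (∏ i, f i ^ a i) := by
    rw [map_prod]
    refine Finset.prod_congr rfl fun i _ => ?_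
    rw [h1, map_pow]
  rw [h2, map_mul, MvPolynomial.algHom_C, PowerSeries.algebraMap_apply]

theorem jy0 : Jy0Stmt := by
  intro k _ σ ι _ _ R _ L χ f a c m hm hω
  refine χ.iso ((FibK k σ (om m) m hω).app_FT (FT.jet Set.univ Set.finite_univ m (om m)))
    (OIso.mk' (fun S _ _ p => ⟨(fun l => coeff 0 (p.1.1.1 l),
        ⟨fun l => p.1.1.1 l - C (coeff 0 (p.1.1.1 l)), fun l j hj => ?_⟩), fun j => ?_⟩)
      (fun S _ _ q => ⟨(⟨fun l => C (q.1.1 l) + q.1.2.1 l, fun l j hj => ?_⟩, ()), fun j => ?_⟩)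
      (fun S _ _ p => ?_) (fun S _ _ q => ?_) (fun φ c p => ?_) (fun S _ _ p b => ?_))
  · rw [map_sub, coeff_C]
    by_cases h0 : j = 0
    · rw [if_pos h0, h0, sub_self]
    · have hj' : m < j := by
        by_contra h1
        exact hj ⟨Nat.one_le_iff_ne_zero.2 h0, not_lt.1 h1⟩
      rw [if_neg h0, p.1.1.2 l j (Or.inr hj'), sub_zero]
  · have h1 : (if (j : ℕ) ≤ m then coeff (j : ℕ) (MvPolynomial.aeval p.1.1.1
        (MvPolynomial.C c * ∏ i, f i ^ a i)) else 0) - (if (j : ℕ) = m then 1 else 0) = 0 := p.2 j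
    rw [if_pos (Nat.lt_succ_iff.1 j.2)] at h1
    show coeff (j : ℕ) ((lp0 f a c m hm).fser fun l => C (coeff 0 (p.1.1.1 l)) +
      (p.1.1.1 l - C (coeff 0 (p.1.1.1 l)))) - (if (j : ℕ) = m then 1 else 0) = 0
    rw [fser_lp0]
    have h2 : (fun l => C (coeff 0 (p.1.1.1 l)) + (p.1.1.1 l - C (coeff 0 (p.1.1.1 l))))
        = p.1.1.1 := funext fun l => by ring
    rw [h2]
    exact h1
  · rw [map_add, coeff_C]
    have hj' : m < j := hj.resolve_left (fun h => h (Set.mem_univ l))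
    rw [if_neg (by omega), q.1.2.2 l j (fun h => by
      have := h.2
      simp only at this
      omega), add_zero]
  · have h1 : coeff (j : ℕ) ((lp0 f a c m hm).fser fun l => C (q.1.1 l) + q.1.2.1 l)
        - (if (j : ℕ) = m then 1 else 0) = 0 := q.2 j
    rw [fser_lp0] at h1
    show (if (j : ℕ) ≤ m then coeff (j : ℕ) (MvPolynomial.aeval (fun l => C (q.1.1 l) + q.1.2.1 l)
        (MvPolynomial.C c * ∏ i, f i ^ a i)) else 0) - (if (j : ℕ) = m then 1 else 0) = 0
    rw [if_pos (Nat.lt_succ_iff.1 j.2)]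
    exact h1
  · refine Subtype.ext (Prod.ext (Subtype.ext (funext fun l => ?_)) rfl)
    show C (coeff 0 (p.1.1.1 l)) + (p.1.1.1 l - C (coeff 0 (p.1.1.1 l))) = p.1.1.1 l
    ring
  · have h0 : ∀ l, coeff 0 (C (q.1.1 l) + q.1.2.1 l) = q.1.1 l := by
      intro l
      rw [map_add, coeff_C, if_pos rfl, q.1.2.2 l 0 (fun h => by
        have := h.1
        simp only at this
        omega), add_zero]
    refine Subtype.ext (Prod.ext (funext fun l => h0 l) (Subtype.ext (funext fun l => ?_)))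
    show C (q.1.1 l) + q.1.2.1 l - C (coeff 0 (C (q.1.1 l) + q.1.2.1 l)) = q.1.2.1 l
    rw [h0]
    ring
  · refine Subtype.ext (Prod.ext (funext fun l => ?_) (Subtype.ext (funext fun l => ?_)))
    · show coeff 0 (twS (om m) φ c (p.1.1.1 l)) = chr c 0 * φ (coeff 0 (p.1.1.1 l))
      rw [coeff_twS, zero_smul]
    · show twS (om m) φ c (p.1.1.1 l) - C (coeff 0 (twS (om m) φ c (p.1.1.1 l)))
        = C (chr c 0) * twS (om m) φ c (p.1.1.1 l - C (coeff 0 (p.1.1.1 l)))
      rw [coeff_twS, zero_smul, chr_zero, one_mul, map_one, one_mul, map_sub, twS_C]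
  · show MvPolynomial.aeval (fun l => coeff 0 (p.1.1.1 l)) (MvPolynomial.X b : MvPolynomial σ k)
      = coeff 0 (p.1.1.1 b)
    rw [MvPolynomial.aeval_X]

end Pool.Agent.Helper32_OMP.H93
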