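import Pool.Agent.Helper32_OMP.StmtB

/-!
# BROOT: the root of an ordinary multiple point
-/

set_option autoImplicit false
set_option linter.unusedVariables false

namespace Pool.Agent.Helper32_OMP.H93

open MvPolynomial Finset Pool.Agent.Helper6_Mono

section low

variable {σ : Type} {K : Type} [Field K]

/-- all monomials have degree at least `m` -/
def Ord (m : ℕ) (P : MvPolynomial σ K) : Prop := ∀ e, coeff e P ≠ 0 → m ≤ e.degree

theorem Ord.add {m : ℕ} {P Q : MvPolynomial σ K} (hP : Ord m P) (hQ : Ord m Q) : Ord m (P + Q) := by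
  intro e he
  by_contra h
  apply he
  have h1 : coeff e P = 0 := by
    by_contra h2
    exact h (hP e h2)
  have h2 : coeff e Q = 0 := by
    by_contra h3
    exact h (hQ e h3)
  rw [coeff_add, h1, h2, add_zero]

theorem Ord.mul {m n : ℕ} {P Q : MvPolynomial σ K} (hP : Ord m P) (hQ : Ord n Q) :
    Ord (m + n) (P * Q) := by
  classical
  intro e he
  rw [coeff_mul] at he
  obtain ⟨x, hx, h1⟩ := Finset.exists_ne_zero_of_sum_ne_zero he
  have h2 := hP x.1 (left_ne_zero_of_mul h1)
  have h3 := hQ x.2 (right_ne_zero_of_mul h1)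
  have h4 := Finset.HasAntidiagonal.mem_antidiagonal.1 hx
  rw [← h4, map_add]
  omega

/-- `G` is the component of lowest degree `m` of `P` -/
def Low (m : ℕ) (P G : MvPolynomial σ K) : Prop := G.IsHomogeneous m ∧ Ord (m + 1) (P - G)

theorem ord_of_hom {m : ℕ} {G : MvPolynomial σ K} (hG : G.IsHomogeneous m) : Ord m G := by
  intro e he
  have h1 := hG he
  rw [Finsupp.degree_eq_weight_one]
  exact h1.ge

theorem Low.ord {m : ℕ} {P G : MvPolynomial σ K} (h : Low m P G) : Ord m P := by
  have h1 : P = (P - G) + G := by ring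
  rw [h1]
  refine Ord.add (fun e he => ?_) (ord_of_hom h.1)
  have := h.2 e he
  omega

theorem Low.mul {m n : ℕ} {P Q G H : MvPolynomial σ K} (hP : Low m P G) (hQ : Low n Q H) :
    Low (m + n) (P * Q) (G * H) := by
  refine ⟨hP.1.mul hQ.1, ?_⟩
  have h1 : P * Q - G * H = (P - G) * Q + G * (Q - H) := by ring
  rw [h1]
  refine Ord.add ?_ ?_
  · have := hP.2.mul hQ.ord
    rwa [add_right_comm] at this
  · have := (ord_of_hom hP.1).mul hQ.2
    rwa [← add_assoc] at this

theorem Low.const (c : K) : Low 0 (C c : MvPolynomial σ K) (C c) := by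
  refine ⟨isHomogeneous_C _ _, ?_⟩
  rw [sub_self]
  intro e he
  exact absurd (coeff_zero e) he

theorem Low.pow {m : ℕ} {P G : MvPolynomial σ K} (h : Low m P G) (n : ℕ) :
    Low (n * m) (P ^ n) (G ^ n) := by
  induction n with
  | zero => rw [zero_mul, pow_zero, pow_zero, ← C_1]; exact Low.const 1
  | succ n ih =>
    rw [pow_succ, pow_succ, Nat.succ_mul]
    exact ih.mul h

theorem Low.prod {ι : Type} (s : Finset ι) {m : ι → ℕ} {P G : ι → MvPolynomial σ K}
    (h : ∀ i ∈ s, Low (m i) (P i) (G i)) : Low (∑ i ∈ s, m i) (∏ i ∈ s, P i) (∏ i ∈ s, G i) := by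
  classical
  induction s using Finset.induction_on with
  | empty => rw [Finset.sum_empty, Finset.prod_empty, Finset.prod_empty, ← C_1]; exact Low.const 1
  | insert i s hi ih =>
    rw [Finset.sum_insert hi, Finset.prod_insert hi, Finset.prod_insert hi]
    exact (h i (Finset.mem_insert_self _ _)).mul
      (ih fun j hj => h j (Finset.mem_insert_of_mem hj))

theorem low_of_comp {m : ℕ} {P : MvPolynomial σ K} (h : ∀ j < m, homogeneousComponent j P = 0) :
    Low m P (homogeneousComponent m P) := by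
  classical
  refine ⟨homogeneousComponent_isHomogeneous _ _, ?_⟩
  intro e he
  rw [coeff_sub, coeff_homogeneousComponent] at he
  by_contra h1
  push Not at h1
  by_cases h2 : e.degree = m
  · rw [if_pos h2, sub_self] at he
    exact he rfl
  · rw [if_neg h2, sub_zero] at he
    have h3 := congrArg (coeff e) (h e.degree (by omega))
    rw [coeff_homogeneousComponent, if_pos rfl, coeff_zero] at h3
    exact he h3

theorem Low.comp_lt {m : ℕ} {P G : MvPolynomial σ K} (h : Low m P G) {j : ℕ} (hj : j < m) :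
    homogeneousComponent j P = 0 := by
  classical
  ext e
  rw [coeff_homogeneousComponent, coeff_zero]
  split_ifs with h1
  · by_contra h2
    have := h.ord e h2
    omega
  · rfl

theorem Low.comp_eq {m : ℕ} {P G : MvPolynomial σ K} (h : Low m P G) :
    homogeneousComponent m P = G := by
  classical
  ext e
  rw [coeff_homogeneousComponent]
  split_ifs with h1
  · have h2 : coeff e (P - G) = 0 := by
      by_contra h2
      have := h.2 e h2
      omega
    rw [coeff_sub, sub_eq_zero] at h2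
    exact h2
  · by_contra h2
    apply h1
    rw [Finsupp.degree_eq_weight_one]
    exact h.1 (Ne.symm h2)

end low

section tra

variable {σ : Type}

theorem eval_zero_tra (p : σ → ℂ) (f : MvPolynomial σ ℂ) : eval 0 (tra p f) = eval p f := by
  rw [tra]
  have h : (eval (0 : σ → ℂ)) (aeval (fun l => X l + C (p l)) f)
      = aeval (fun l => (eval (0 : σ → ℂ)) (X l + C (p l) : MvPolynomial σ ℂ)) f := by
    have := MvPolynomial.comp_aeval_apply (fun l => (X l + C (p l) : MvPolynomial σ ℂ))
      (MvPolynomial.aeval (0 : σ → ℂ)) f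
    exact this
  rw [h]
  have h2 : (fun l => (eval (0 : σ → ℂ)) (X l + C (p l) : MvPolynomial σ ℂ)) = p := by
    funext l
    simp
  rw [h2]
  rfl

theorem pderiv_tra (p : σ → ℂ) (f : MvPolynomial σ ℂ) (l : σ) :
    pderiv l (tra p f) = tra p (pderiv l f) := by
  classical
  rw [tra, tra]
  induction f using MvPolynomial.induction_on with
  | C a => simp
  | add P Q hP hQ => rw [map_add, map_add, map_add, map_add, hP, hQ]
  | mul_X P i hP =>
    rw [map_mul, pderiv_mul, hP, pderiv_mul, map_add, map_mul, map_mul, aeval_X, pderiv_X,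
      map_add, pderiv_X, pderiv_C, add_zero]
    congr 2
    by_cases h : l = i
    · subst h; simp
    · rw [Pi.single_eq_of_ne (Ne.symm h), map_zero]

theorem eval_zero_pderiv (Q : MvPolynomial σ ℂ) (l : σ) :
    eval 0 (pderiv l Q) = coeff (Finsupp.single l 1) Q := by
  classical
  induction Q using MvPolynomial.induction_on' with
  | monomial e a =>
    rw [pderiv_monomial, eval_monomial, coeff_monomial]
    by_cases h : e = Finsupp.single l 1
    · rw [if_pos h, h]
      simp
    · rw [if_neg h]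
      by_cases h1 : e l = 0
      · rw [h1]; simp
      · have h2 : e - Finsupp.single l 1 ≠ 0 := by
          intro h3
          apply h
          ext i
          have h4 := DFunLike.congr_fun h3 i
          rw [Finsupp.tsub_apply, Finsupp.zero_apply] at h4
          by_cases hi : i = l
          · rw [hi] at h4 ⊢
            rw [Finsupp.single_eq_same] at h4 ⊢
            omega
          · rw [Finsupp.single_eq_of_ne hi] at h4 ⊢
            omega
        obtain ⟨i, hi⟩ := Finsupp.ne_iff.1 h2
        rw [Finsupp.prod, Finset.prod_eq_zero (i := i) (Finsupp.mem_support_iff.2 hi), mul_zero]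
        exact zero_pow hi
  | add P Q hP hQ => rw [map_add, map_add, coeff_add, hP, hQ]

end tra

section fields

variable {σ : Type} [Fintype σ]

theorem ap_mul (H : σ → MvPolynomial σ ℂ) (P Q : MvPolynomial σ ℂ) :
    ap H (P * Q) = ap H P * Q + P * ap H Q := by
  simp only [ap, pderiv_mul, mul_add, Finset.sum_add_distrib, Finset.sum_mul, Finset.mul_sum]
  congr 1
  · exact Finset.sum_congr rfl fun l _ => by ring
  · exact Finset.sum_congr rfl fun l _ => by ring

theorem ap_C (H : σ → MvPolynomial σ ℂ) (c : ℂ) : ap H (C c) = 0 := by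
  simp [ap]

/-- logarithmic derivative of a product of powers -/
theorem ap_prod {ι : Type} [DecidableEq ι] (H : σ → MvPolynomial σ ℂ)
    (g : ι → MvPolynomial σ ℂ) (a : ι → ℕ) (s : Finset ι) :
    (∏ i ∈ s, g i) * ap H (∏ i ∈ s, g i ^ a i)
      = (∏ i ∈ s, g i ^ a i) * ∑ i ∈ s, C (a i : ℂ) * ap H (g i) * ∏ j ∈ s.erase i, g j := by
  have hpow : ∀ (P : MvPolynomial σ ℂ) (n : ℕ), P * ap H (P ^ n) = P ^ n * (C (n : ℂ) * ap H P) := by
    intro P n
    induction n with
    | zero => rw [pow_zero, ← C_1, ap_C]; simp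
    | succ n ih =>
      rw [pow_succ, ap_mul, mul_add, ← mul_assoc, ih]
      push_cast
      rw [C_add, C_1]
      ring
  induction s using Finset.induction_on with
  | empty =>
    simp only [Finset.prod_empty, Finset.sum_empty]
    rw [← C_1, ap_C, mul_zero]
  | insert i s hi ih =>
    rw [Finset.prod_insert hi, Finset.prod_insert hi, Finset.sum_insert hi, ap_mul,
      Finset.erase_insert hi]
    have h1 : ∑ x ∈ s, C (a x : ℂ) * ap H (g x) * ∏ j ∈ (insert i s).erase x, g j
        = g i * ∑ x ∈ s, C (a x : ℂ) * ap H (g x) * ∏ j ∈ s.erase x, g j := by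
      rw [Finset.mul_sum]
      refine Finset.sum_congr rfl fun x hx => ?_
      have hxi : x ≠ i := fun h => hi (h ▸ hx)
      rw [Finset.erase_insert_of_ne (Ne.symm hxi), Finset.prod_insert (fun h => hi
        (Finset.mem_of_mem_erase h))]
      ring
    rw [h1]
    have h2 := hpow (g i) (a i)
    linear_combination (∏ x ∈ s, g x) * (∏ i ∈ s, g i ^ a i) * h2 + g i * g i ^ a i * ih

end fields

open scoped Classical in
theorem teq_of {σ κ : Type} [Fintype σ] [Fintype κ] (g' : κ → MvPolynomial σ ℂ) (a : κ → ℕ)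
    (β c' : ℂ) (N : ℕ) (H : σ → MvPolynomial σ ℂ) (hc'0 : c' ≠ 0) (hg0 : ∀ i, g' i ≠ 0)
    (hHeq : C c' * (∏ i, g' i ^ a i) * dv H + C (β - N) * (C c' * ap H (∏ i, g' i ^ a i))
      = (C c' * ∏ i, g' i ^ a i) ^ (N + 1)) :
    TEq g' a β (fun i => N * a i) (fun l => C ((c' ^ N)⁻¹) * H l) := by
  have hlog := ap_prod H g' a univ
  have hCc' : (C c' : MvPolynomial σ ℂ) ≠ 0 := fun h => hc'0 (C_eq_zero.1 h)
  have hPne' : (∏ i, g' i ^ a i) ≠ 0 :=
    Finset.prod_ne_zero_iff.2 fun i _ => pow_ne_zero _ (hg0 i)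
  have hdv : dv (fun l => C ((c' ^ N)⁻¹) * H l) = C ((c' ^ N)⁻¹) * dv H := by
    simp only [dv, pderiv_C_mul, Finset.mul_sum]
  have hap2 : ∀ Q, ap (fun l => C ((c' ^ N)⁻¹) * H l) Q = C ((c' ^ N)⁻¹) * ap H Q := by
    intro Q
    simp only [ap, Finset.mul_sum, mul_assoc]
  have hpw : ∏ i, g' i ^ (N * a i) = (∏ i, g' i ^ a i) ^ N := by
    rw [← Finset.prod_pow]
    refine Finset.prod_congr rfl fun i _ => ?_
    rw [mul_comm, pow_mul]
  unfold TEq
  beta_reduce
  rw [hdv, hpw]
  have h1 : ∑ i, C (β * (a i : ℂ) - ((N * a i : ℕ) : ℂ)) *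
      ap (fun l => C ((c' ^ N)⁻¹) * H l) (g' i) * ∏ j ∈ univ.erase i, g' j
      = C ((c' ^ N)⁻¹) * (C (β - N) * ∑ i, C (a i : ℂ) * ap H (g' i) *
        ∏ j ∈ univ.erase i, g' j) := by
    rw [Finset.mul_sum, Finset.mul_sum]
    refine Finset.sum_congr rfl fun i _ => ?_
    rw [hap2]
    have h2 : (C (β * (a i : ℂ) - ((N * a i : ℕ) : ℂ)) : MvPolynomial σ ℂ)
        = C (β - N) * C (a i : ℂ) := by
      rw [← C_mul]
      congr 1
      push_cast
      ring
    rw [h2]
    ring
  rw [h1]
  have hcN : (C ((c' ^ N)⁻¹) : MvPolynomial σ ℂ) * C c' ^ N = 1 := by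
    rw [← C_pow, ← C_mul, inv_mul_cancel₀ (pow_ne_zero _ hc'0), C_1]
  set P := ∏ i, g' i ^ a i with hP
  have h3 : P * dv H + C (β - N) * ap H P = C c' ^ N * P ^ (N + 1) := by
    apply mul_left_cancel₀ hCc'
    rw [mul_pow, pow_succ (C c')] at hHeq
    linear_combination hHeq
  have h4 : (∏ i, g' i) * dv H + C (β - N) * ∑ i, C (a i : ℂ) * ap H (g' i) *
        ∏ j ∈ univ.erase i, g' j = C c' ^ N * (∏ i, g' i) * P ^ N := by
    apply mul_left_cancel₀ hPne'
    rw [pow_succ] at h3
    linear_combination (∏ i, g' i) * h3 - C (β - N) * hlog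
  linear_combination C ((c' ^ N)⁻¹) * h4 + (∏ i, g' i) * P ^ N * hcN

open scoped Classical in
theorem broot (hLead : LeadhStmt) (hPole : PoleStmt) (hLinf : LinfStmt) : BrootStmt := by
  intro σ ι _ _ hcard f a ha c hc p d hd hsnc hnot
  have hσ : Nonempty σ := Fintype.card_pos_iff.1 (by omega)
  obtain ⟨l0⟩ := hσ
  set g : ι → MvPolynomial σ ℂ := fun i => homogeneousComponent (d i) (tra p (f i)) with hg
  -- the functions `g i` are not zero
  have hz : (fun _ : σ => (1 : ℂ)) ≠ 0 := fun h => one_ne_zero (congrFun h l0)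
  have hg0 : ∀ i, g i ≠ 0 := by
    intro i h0
    have h1 := (hsnc _ hz).ne_zero ⟨i, by
      show eval (fun _ => (1 : ℂ)) (g i) = 0
      rw [h0, map_zero]⟩
    apply h1
    funext l
    show eval (fun _ => (1 : ℂ)) (pderiv l (g i)) = 0
    rw [h0, map_zero, map_zero]
  have hcoeff : ∀ Q : MvPolynomial σ ℂ, homogeneousComponent 0 Q = C (eval 0 Q) := by
    intro Q
    rw [homogeneousComponent_zero, ← constantCoeff_eq, ← MvPolynomial.eval_zero' ]
    rfl
  have hd0 : ∀ i, d i = 0 → g i = C (eval p (f i)) := by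
    intro i hi
    rw [hg]
    show homogeneousComponent (d i) (tra p (f i)) = _
    rw [hi, hcoeff, eval_zero_tra]
  have hdpos : ∀ i, 0 < d i → eval p (f i) = 0 := by
    intro i hi
    have h1 := hd i 0 hi
    rw [hcoeff, eval_zero_tra] at h1
    exact (C_eq_zero).1 h1
  have hdiff : ∀ i, 0 < d i ↔ eval p (f i) = 0 := by
    intro i
    refine ⟨hdpos i, fun h => ?_⟩
    by_contra h1
    have h2 := hd0 i (by omega)
    rw [h, C_0] at h2
    exact hg0 i h2
  -- the components through `p`
  let ι' : Type := {i : ι // 0 < d i}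
  have hne : Nonempty ι' := by
    by_contra hemp
    apply hnot
    have : IsEmpty {i // eval p (f i) = 0} := ⟨fun i => hemp ⟨⟨i.1, (hdiff i.1).2 i.2⟩⟩⟩
    exact linearIndependent_empty_type
  have hDpos : 0 < ∑ i, a i * d i := by
    obtain ⟨i⟩ := hne
    exact Finset.sum_pos' (fun i _ => Nat.zero_le _)
      ⟨i.1, Finset.mem_univ _, Nat.mul_pos (ha i.1) i.2⟩
  refine ⟨hDpos, ?_⟩
  set D : ℕ := ∑ i, a i * d i with hD
  set F : MvPolynomial σ ℂ := C c * ∏ i, f i ^ a i with hF
  set β : ℂ := -((Fintype.card σ : ℂ) / (D : ℕ)) with hβ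
  have hDC : (D : ℂ) ≠ 0 := by exact_mod_cast hDpos.ne'
  have hβD : β * D = -(Fintype.card σ : ℂ) := by
    rw [hβ, neg_mul, div_mul_cancel₀ _ hDC]
  -- the initial form of `F`
  have hlow : Low D (tra p F) (C c * ∏ i, g i ^ a i) := by
    have h1 : tra p F = C c * ∏ i, tra p (f i) ^ a i := by
      rw [hF, tra, map_mul, map_prod]
      congr 1
      · exact MvPolynomial.algHom_C _ _
      · exact Finset.prod_congr rfl fun i _ => map_pow _ _ _
    rw [h1, ← zero_add D]
    exact (Low.const c).mul (Low.prod univ fun i _ => (low_of_comp (hd i)).pow (a i))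
  have hPne : (∏ i, g i ^ a i) ≠ 0 := Finset.prod_ne_zero_iff.2 fun i _ => pow_ne_zero _ (hg0 i)
  have hCc : (C c : MvPolynomial σ ℂ) ≠ 0 := fun h => hc (C_eq_zero.1 h)
  by_contra hroot
  obtain ⟨N, H, hHhom, hHeq⟩ := hLead σ F p D (C c * ∏ i, g i ^ a i) hDpos
    (fun j hj => hlow.comp_lt hj) hlow.comp_eq.symm (mul_ne_zero hCc hPne) β hβD hroot
  -- split off the constants
  set c' : ℂ := c * ∏ i ∈ univ.filter (fun i => ¬ 0 < d i), eval p (f i) ^ a i with hc'
  have hc'0 : c' ≠ 0 := by
    refine mul_ne_zero hc (Finset.prod_ne_zero_iff.2 fun i hi => pow_ne_zero _ fun h => ?_)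
    exact (Finset.mem_filter.1 hi).2 ((hdiff i).2 h)
  let g' : ι' → MvPolynomial σ ℂ := fun i => g i.1
  set P : MvPolynomial σ ℂ := ∏ i : ι', g' i ^ a i.1 with hP
  have hf0 : C c * ∏ i, g i ^ a i = C c' * P := by
    have h1 : ∏ i, g i ^ a i = (∏ i ∈ univ.filter (fun i => 0 < d i), g i ^ a i) *
        ∏ i ∈ univ.filter (fun i => ¬ 0 < d i), g i ^ a i :=
      (Finset.prod_filter_mul_prod_filter_not _ _ _).symm
    have h2 : ∏ i ∈ univ.filter (fun i => 0 < d i), g i ^ a i = P := by
      rw [hP]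
      exact Finset.prod_subtype (univ.filter (fun i => 0 < d i)) (fun i => by simp) _
    have h3 : ∏ i ∈ univ.filter (fun i => ¬ 0 < d i), g i ^ a i
        = C (∏ i ∈ univ.filter (fun i => ¬ 0 < d i), eval p (f i) ^ a i) := by
      rw [map_prod]
      refine Finset.prod_congr rfl fun i hi => ?_
      have h4 := (Finset.mem_filter.1 hi).2
      rw [hd0 i (by omega), map_pow]
    rw [h1, h2, h3, hc', C_mul]
    ring
  have hCc' : (C c' : MvPolynomial σ ℂ) ≠ 0 := fun h => hc'0 (C_eq_zero.1 h)
  have hPne' : P ≠ 0 := Finset.prod_ne_zero_iff.2 fun i _ => pow_ne_zero _ (hg0 i.1)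
  have hap : ap H (C c' * P) = C c' * ap H P := by
    rw [ap_mul, ap_C, zero_mul, zero_add]
  rw [hf0, hap] at hHeq
  have hTEq : TEq g' (fun i => a i.1) β (fun i => N * a i.1)
      (fun l => C ((c' ^ N)⁻¹) * H l) :=
    teq_of g' (fun i => a i.1) β c' N H hc'0 (fun i => hg0 i.1) hHeq
  have hOrd : IsOrd g' (fun i : ι' => d i.1) := by
    refine ⟨fun i => homogeneousComponent_isHomogeneous _ _, fun i => i.2, fun z hz => ?_⟩
    have h1 := hsnc z hz
    let e : {i : ι' // eval z (g' i) = 0} → {i : ι // eval z (g i) = 0} :=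
      fun i => ⟨i.1.1, i.2⟩
    have he : Function.Injective e := by
      intro i j hij
      exact Subtype.ext (Subtype.ext (congrArg (fun x => x.1) hij : i.1.1 = j.1.1))
    exact h1.comp e he
  have hsumD : ∑ i : ι', a i.1 * d i.1 = D := by
    rw [hD]
    have h1 : ∑ i : ι', a i.1 * d i.1 = ∑ i ∈ univ.filter (fun i => 0 < d i), a i * d i :=
      (Finset.sum_subtype (univ.filter (fun i => 0 < d i)) (fun i => by simp)
        (fun i => a i * d i)).symm
    rw [h1]
    refine Finset.sum_subset (Finset.filter_subset _ _) fun i _ hi => ?_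
    have : ¬ 0 < d i := fun h => hi (Finset.mem_filter.2 ⟨Finset.mem_univ _, h⟩)
    have h2 : d i = 0 := by omega
    rw [h2, mul_zero]
  have hβD' : β * (∑ i : ι', a i.1 * d i.1 : ℕ) = -(Fintype.card σ : ℂ) := by
    rw [hsumD, hβD]
  obtain ⟨H', hH'hom, hH'T⟩ := hPole σ ι' hcard g' (fun i => d i.1) hOrd (fun i => a i.1)
    (fun i => ha i.1) β hβD' (fun i => N * a i.1) (fun l => C ((c' ^ N)⁻¹) * H l) (fun l => by
      have h1 : 1 + ∑ i : ι', N * a i.1 * d i.1 = 0 + (D * N + 1) := by
        have : ∑ i : ι', N * a i.1 * d i.1 = N * D := by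
          rw [← hsumD, Finset.mul_sum]
          exact Finset.sum_congr rfl fun i _ => by ring
        rw [this]
        ring
      rw [h1]
      exact (isHomogeneous_C _ _).mul (hHhom l)) hTEq
  obtain ⟨hd1, hsnc0⟩ := hLinf σ ι' hcard g' (fun i => d i.1) hOrd (fun i => a i.1)
    (fun i => ha i.1) β hβD' H' hH'hom hH'T
  -- the gradients agree
  apply hnot
  have hgrad : ∀ (i : ι') (l : σ), eval 0 (pderiv l (g' i)) = eval p (pderiv l (f i.1)) := by
    intro i l
    rw [eval_zero_pderiv]
    show coeff (Finsupp.single l 1) (homogeneousComponent (d i.1) (tra p (f i.1))) = _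
    rw [hd1 i, coeff_homogeneousComponent, if_pos (Finsupp.degree_single _ _),
      ← eval_zero_pderiv, pderiv_tra, eval_zero_tra]
  let e : {i : ι // eval p (f i) = 0} → {i : ι' // eval 0 (g' i) = 0} := fun i =>
    ⟨⟨i.1, (hdiff i.1).2 i.2⟩, by
      have h1 : d i.1 = 1 := hd1 ⟨i.1, (hdiff i.1).2 i.2⟩
      have h2 : (g i.1).IsHomogeneous (d i.1) := homogeneousComponent_isHomogeneous _ _
      rw [h1] at h2
      show eval 0 (g i.1) = 0
      have h3 := hcoeff (g i.1)
      rw [homogeneousComponent_zero] at h3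
      rw [← C_injective _ _ h3]
      by_contra h4
      have h5 := h2 h4
      rw [map_zero] at h5
      exact zero_ne_one h5⟩
  have he : Function.Injective e := by
    intro i j hij
    exact Subtype.ext (congrArg (fun x => x.1.1) hij)
  have h1 := hsnc0.comp e he
  have h2 : (fun i : {i : ι' // eval 0 (g' i) = 0} => fun l : σ => eval 0 (pderiv l (g' i.1))) ∘ e
      = fun i : {i // eval p (f i) = 0} => fun l : σ => eval p (pderiv l (f i.1)) := by
    funext i l
    exact hgrad ⟨i.1, (hdiff i.1).2 i.2⟩ l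
  have h3 : LinearIndependent ℂ (fun i : {i // eval p (f i) = 0} =>
      fun l : σ => eval p (pderiv l (f i.1))) := by
    rw [← h2]
    exact h1
  exact h3

end Pool.Agent.Helper32_OMP.H93
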