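import Pool.Agent.Helper32_OMP.Stmts
import Pool.Agent.Helper6_Mono.Van

/-!
# CELL: the jets over a cell
-/

set_option autoImplicit false
set_option linter.unusedVariables false

namespace Pool.Agent.Helper32_OMP.H93

open PowerSeries Finset Pool.Agent.Helper6_Mono

section card

variable {σ ι : Type} [Fintype σ]

open scoped Classical in
theorem ncard_Dfree (M : ℕ) (I : Finset ι) (τ : I ↪ σ) (u : I → ℕ) (hu : ∀ i, u i < M) :
    (Dfree M I τ u).Finite ∧
      (Dfree M I τ u).ncard + ∑ i : I, (u i + 1) = Fintype.card σ * M := by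
  let P : (σ ⊕ I) → ℕ → Prop := fun x j => (∃ l, x = Sum.inl l ∧ l ∉ Set.range τ ∧ 1 ≤ j) ∨
    ∃ i, x = Sum.inr i ∧ u i + 1 < j
  let s : Finset ((σ ⊕ I) × ℕ) := (univ ×ˢ range (M + 1)).filter fun p => P p.1 p.2
  have hs : Dfree M I τ u = (s : Set ((σ ⊕ I) × ℕ)) := by
    ext p
    simp only [Dfree, s, P, Finset.coe_filter, Finset.mem_product, Finset.mem_univ, true_and,
      Finset.mem_range, Nat.lt_succ_iff]
  rw [hs]
  refine ⟨s.finite_toSet, ?_⟩
  rw [Set.ncard_coe_finset]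
  have h1 : s.card = ∑ x : σ ⊕ I, ((range (M + 1)).filter (P x)).card := by
    rw [Finset.card_filter, Finset.sum_product]
    exact Finset.sum_congr rfl fun x _ => (Finset.card_filter _ _).symm
  have h2 : ∀ l : σ, ((range (M + 1)).filter (P (Sum.inl l))).card
      = if l ∈ Set.range τ then 0 else M := by
    intro l
    by_cases hl : l ∈ Set.range τ
    · rw [if_pos hl, Finset.card_eq_zero, Finset.filter_eq_empty_iff]
      rintro j _ (⟨l', h, h', _⟩ | ⟨i, h, _⟩)
      · cases h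
        exact h' hl
      · cases h
    · rw [if_neg hl]
      have : (range (M + 1)).filter (P (Sum.inl l)) = Finset.Icc 1 M := by
        ext j
        rw [Finset.mem_filter, Finset.mem_range, Finset.mem_Icc]
        constructor
        · rintro ⟨h, ⟨l', h1, h', h2⟩ | ⟨i, h1, _⟩⟩
          · exact ⟨h2, by omega⟩
          · cases h1
        · rintro ⟨h, h'⟩
          exact ⟨by omega, Or.inl ⟨l, rfl, hl, h⟩⟩
      rw [this, Nat.card_Icc]
      omega
  have h3 : ∀ i : I, ((range (M + 1)).filter (P (Sum.inr i))).card = M - (u i + 1) := by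
    intro i
    have : (range (M + 1)).filter (P (Sum.inr i)) = Finset.Ioc (u i + 1) M := by
      ext j
      rw [Finset.mem_filter, Finset.mem_range, Finset.mem_Ioc]
      constructor
      · rintro ⟨h, ⟨l', h1, h', h2⟩ | ⟨i', h1, h2⟩⟩
        · cases h1
        · cases h1
          exact ⟨h2, by omega⟩
      · rintro ⟨h, h'⟩
        exact ⟨by omega, Or.inr ⟨i, rfl, h⟩⟩
    rw [this, Nat.card_Ioc]
  rw [h1, Fintype.sum_sum_type, Finset.sum_congr rfl fun l _ => h2 l,
    Finset.sum_congr rfl fun i _ => h3 i]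
  have h4 : ∑ i : I, (M - (u i + 1)) + ∑ i : I, (u i + 1) = ∑ i : I, M := by
    rw [← Finset.sum_add_distrib]
    exact Finset.sum_congr rfl fun i _ => Nat.sub_add_cancel (hu i)
  have h5 : ∑ i : I, M = ∑ l : σ, if l ∈ Set.range τ then M else 0 := by
    rw [← Finset.sum_filter]
    have h6 : (univ : Finset σ).filter (fun l => l ∈ Set.range τ) = univ.map τ := by
      ext l
      simp
    rw [h6, Finset.sum_map]
  rw [add_assoc, h4, h5, ← Finset.sum_add_distrib]
  have h7 : ∀ l : σ, ((if l ∈ Set.range τ then 0 else M) + if l ∈ Set.range τ then M else 0) = M := by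
    intro l
    split_ifs <;> simp
  rw [Finset.sum_congr rfl fun l _ => h7 l, Finset.sum_const, Finset.card_univ, smul_eq_mul]

end card

theorem FT.Tor {k : Type} [Field k] {σ ι : Type} [Fintype ι] (D : LP k σ ι)
    {Z : Over k QZ σ (fun _ => D.θ)} (hZ : FT Z.F) (I : Finset ι) (e : I → ℕ)
    (he : ∑ i : I, D.a i * e i = D.M) : FT (D.Tor Z I e he).F := by
  classical
  let E : {S : Type} → [CommRing S] → [Algebra k S] →
      (Z.F.prod (GF.pi k fun i : I => D.ϑ i + e i • D.ω)).obj S → S :=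
    fun {S} _ _ x => algebraMap k S D.c *
      (∏ i ∈ univ \ I, MvPolynomial.aeval (Z.base x.1) (at0 (D.F i)) ^ D.a i) *
        ∏ i : I, x.2 i ^ D.a i
  have hE : ∀ {S S' : Type} [CommRing S] [Algebra k S] [CommRing S'] [Algebra k S']
      (φ : S →ₐ[k] S') (c : Chr QZ S')
      (x : (Z.F.prod (GF.pi k fun i : I => D.ϑ i + e i • D.ω)).obj S),
      E ((Z.F.prod (GF.pi k fun i : I => D.ϑ i + e i • D.ω)).tw φ c x) = φ (E x) := by
    intro S S' _ _ _ _ φ c x
    have h1 : ∀ i, MvPolynomial.aeval (Z.base (Z.F.tw φ c x.1)) (at0 (D.F i)) ^ D.a i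
        = chr c (D.a i • D.ϑ i) * φ (MvPolynomial.aeval (Z.base x.1) (at0 (D.F i)) ^ D.a i) := by
      intro i
      rw [Z.base_tw, aeval_tw (at0_hom (D.hF i)), mul_pow, chr_nsmul, map_pow]
    have h2 : ∀ i : I, (chr c (D.ϑ i + e i • D.ω) * φ (x.2 i)) ^ D.a i
        = chr c (D.a i • (D.ϑ i + e i • D.ω)) * φ (x.2 i ^ D.a i) := by
      intro i
      rw [mul_pow, chr_nsmul, map_pow]
    show algebraMap k S' D.c *
      (∏ i ∈ univ \ I, MvPolynomial.aeval (Z.base (Z.F.tw φ c x.1)) (at0 (D.F i)) ^ D.a i) *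
        ∏ i : I, (chr c (D.ϑ i + e i • D.ω) * φ (x.2 i)) ^ D.a i = _
    rw [Finset.prod_congr rfl fun i _ => h1 i, Finset.prod_congr rfl fun i _ => h2 i,
      Finset.prod_mul_distrib, Finset.prod_mul_distrib, ← chr_sum, ← chr_sum, ← map_prod,
      ← map_prod]
    have h3 : ∑ i ∈ univ \ I, D.a i • D.ϑ i + ∑ i : I, D.a i • (D.ϑ i + e i • D.ω) = 0 := by
      have h4 : ∑ i : I, D.a i • (D.ϑ i + e i • D.ω)
          = ∑ i ∈ I, D.a i • D.ϑ i + D.M • D.ω := by
        rw [← he, Finset.sum_smul, ← Finset.sum_coe_sort I (fun i => D.a i • D.ϑ i),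
          ← Finset.sum_add_distrib]
        refine Finset.sum_congr rfl fun i _ => ?_
        rw [smul_add, smul_smul]
      rw [h4, ← add_assoc, Finset.sum_sdiff (Finset.subset_univ I), D.hM]
    have h5 : chr c (∑ i ∈ univ \ I, D.a i • D.ϑ i)
        * chr c (∑ i : I, D.a i • (D.ϑ i + e i • D.ω)) = 1 := by
      rw [← chr_add, h3, chr_zero]
    show _ = φ (algebraMap k S D.c *
      (∏ i ∈ univ \ I, MvPolynomial.aeval (Z.base x.1) (at0 (D.F i)) ^ D.a i) *
        ∏ i : I, x.2 i ^ D.a i)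
    rw [map_mul, map_mul, AlgHom.commutes]
    calc _ = (chr c (∑ i ∈ univ \ I, D.a i • D.ϑ i)
        * chr c (∑ i : I, D.a i • (D.ϑ i + e i • D.ω))) * (algebraMap k S' D.c *
          φ (∏ i ∈ univ \ I, MvPolynomial.aeval (Z.base x.1) (at0 (D.F i)) ^ D.a i) *
            φ (∏ i : I, x.2 i ^ D.a i)) := by ring
      _ = _ := by rw [h5, one_mul]
  refine FT.closed (hZ.prod (FT.pi _)) (fun φ c x hx => (hE φ c x).trans (by
    rw [show E x = 1 from hx, map_one])) (A := Unit) (w := fun _ => 0)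
    (fun _ => ⟨fun {S} _ _ x => E x - 1, fun φ c x => by
      rw [hE, chr_zero, one_mul, map_sub, map_one]⟩) (fun S _ _ x =>
      ⟨fun hx _ => sub_eq_zero.2 hx, fun hx => sub_eq_zero.1 (hx ())⟩)

theorem cell (hStr : StrStmt) (hCemp : CempStmt) (hCiso : CisoStmt) : CellStmt := by
  intro k _ σ ι _ _ R _ L χ D ha hc Z hZ I τ hcell
  classical
  have hX : FT (D.K.app Z).F := D.K.app_FT hZ
  obtain ⟨hFT, hsum⟩ := hStr k σ (fun _ => 0) R L χ (D.K.app Z) hX I D.M _ (hco D Z I)
  rw [hsum, Finset.mul_sum]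
  have huniv : ∀ (i1 i2 : Fintype (I → Fin (D.M + 1))),
      @Finset.univ _ i1 = @Finset.univ _ i2 := fun i1 i2 => by rw [Subsingleton.elim i1 i2]
  refine Finset.sum_congr (huniv _ _) fun u _ => ?_
  by_cases he : (∀ i, (u i : ℕ) < D.M) ∧ ∑ i : I, D.a i * ((u i : ℕ) + 1) = D.M
  · rw [dif_pos he]
    have hiso := hCiso k σ ι D ha hc Z I τ hcell u he.1 he.2
    obtain ⟨hfin, hcard⟩ := ncard_Dfree D.M I τ (fun i => (u i : ℕ)) he.1
    rw [χ.iso (hFT u) hiso, times_ser χ (FT.Tor D hZ I _ he.2) hfin, ← mul_assoc]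
    congr 1
    have hL : Li L * (L : R) = 1 := Units.inv_mul L
    calc Li L ^ (Fintype.card σ * D.M) * (L : R) ^ (Dfree D.M I τ fun i => (u i : ℕ)).ncard
        = Li L ^ (∑ i : I, ((u i : ℕ) + 1)) *
          (Li L * (L : R)) ^ (Dfree D.M I τ fun i => (u i : ℕ)).ncard := by
          rw [← hcard, pow_add, mul_pow]
          ring
      _ = _ := by rw [hL, one_pow, mul_one]
  · rw [dif_neg he, χ.empty (hFT u) (fun S _ _ x => hCemp k σ ι D ha hc Z I τ hcell u he S x),
      mul_zero]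

end Pool.Agent.Helper32_OMP.H93
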