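import Pool.Agent.Helper32_OMP.Stmts

/-!
# CEMP: strata of jets with the wrong orders are empty
-/

set_option autoImplicit false
set_option linter.unusedVariables false

namespace Pool.Agent.Helper32_OMP.H93

open PowerSeries Finset Pool.Agent.Helper6_Mono

theorem coeff_zero_evt {k : Type} [Field k] {σ : Type} {S : Type} [CommRing S] [Algebra k S]
    (F : MvPolynomial (Option σ) k) (γ : σ → S⟦X⟧) :
    coeff 0 (evt F γ) = MvPolynomial.aeval (fun l => coeff 0 (γ l)) (at0 F) := by
  have h1 : coeff 0 (evt F γ) = MvPolynomial.aeval (fun o : Option σ =>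
      o.elim (0 : S) fun l => coeff 0 (γ l)) F := by
    induction F using MvPolynomial.induction_on with
    | C a =>
      rw [evt, MvPolynomial.algHom_C, MvPolynomial.algHom_C, PowerSeries.algebraMap_apply, coeff_C,
        if_pos rfl]
    | add p q hp hq => rw [evt, map_add, map_add, map_add, ← hp, ← hq]
    | mul_X p o hp =>
      have e1 : evt (p * MvPolynomial.X o) γ
          = evt p γ * (o.elim (PowerSeries.X : S⟦X⟧) γ) := by
        rw [evt, map_mul, MvPolynomial.aeval_X]
      have e2 : coeff 0 (o.elim (PowerSeries.X : S⟦X⟧) γ)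
          = o.elim (0 : S) fun l => coeff 0 (γ l) := by
        cases o with
        | none => exact coeff_zero_X
        | some l => rfl
      rw [e1, coeff_zero_eq_constantCoeff_apply, map_mul, ← coeff_zero_eq_constantCoeff_apply,
        ← coeff_zero_eq_constantCoeff_apply, hp, e2, map_mul, MvPolynomial.aeval_X]
  rw [h1, at0, MvPolynomial.comp_aeval_apply]
  congr 2
  funext o
  cases o with
  | none => exact (map_zero _).symm
  | some l => exact (MvPolynomial.aeval_X (fun l => coeff 0 (γ l)) l).symm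

theorem cemp : CempStmt := by
  intro k _ σ ι _ _ D ha hc Z I τ hcell u hu S _ _ x
  classical
  obtain ⟨x, hx⟩ := x
  -- notation
  set y : σ → S := Z.base x.1.1 with hy
  set γ : σ → S⟦X⟧ := fun l => C (y l) + x.1.2.1 l with hγ
  have hδ0 : ∀ l, coeff 0 (x.1.2.1 l) = 0 := fun l => x.1.2.2 l 0 (fun h => by
    have := h.1
    simp only at this
    omega)
  have hγ0 : ∀ l, coeff 0 (γ l) = y l := by
    intro l
    rw [hγ]
    show coeff 0 (C (y l) + x.1.2.1 l) = y l
    rw [map_add, coeff_C, if_pos rfl, hδ0, add_zero]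
  have heq : ∀ j, j ≤ D.M → coeff j (D.fser γ) = if j = D.M then 1 else 0 := by
    intro j hj
    exact sub_eq_zero.1 (x.2 ⟨j, Nat.lt_succ_of_le hj⟩)
  have hv0 : ∀ i, coeff 0 (evt (D.F i) γ) = MvPolynomial.aeval y (at0 (D.F i)) := by
    intro i
    rw [coeff_zero_evt]
    congr 2
    funext l
    exact hγ0 l
  have hI0 : ∀ i ∈ I, coeff 0 (evt (D.F i) γ) = 0 := fun i hi => by
    rw [hv0]; exact hcell.zero i hi S x.1.1
  have hlow : ∀ i : I, ∀ j < (u i : ℕ), coeff (j + 1) (evt (D.F i) γ) = 0 := fun i j hj =>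
    (hx i).1 j hj
  have hun : ∀ i : I, (u i : ℕ) < D.M → IsUnit (coeff ((u i : ℕ) + 1) (evt (D.F i) γ)) :=
    fun i hi => (hx i).2 hi
  have hdvd : ∀ i : I, (PowerSeries.X : S⟦X⟧) ^ ((u i : ℕ) + 1) ∣ evt (D.F i) γ := by
    intro i
    rw [X_pow_dvd_iff]
    intro j hj
    cases j with
    | zero => exact hI0 i i.2
    | succ j => exact hlow i j (by omega)
  by_cases hM : ∀ i, (u i : ℕ) < D.M
  · -- all orders are small
    have hs : ∑ i : I, D.a i * ((u i : ℕ) + 1) ≠ D.M := fun h => hu ⟨hM, h⟩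
    have hw : ∀ i : ι, ∃ w : S⟦X⟧, evt (D.F i) γ = PowerSeries.X ^
        (if h : i ∈ I then (u ⟨i, h⟩ : ℕ) + 1 else 0) * w ∧ IsUnit (coeff 0 w) := by
      intro i
      by_cases hi : i ∈ I
      · obtain ⟨w, hw⟩ := hdvd ⟨i, hi⟩
        have hw' : evt (D.F i) γ = PowerSeries.X ^ ((u ⟨i, hi⟩ : ℕ) + 1) * w := hw
        refine ⟨w, by rw [dif_pos hi]; exact hw', ?_⟩
        have h1 : IsUnit (coeff ((u ⟨i, hi⟩ : ℕ) + 1) (evt (D.F i) γ)) := hun ⟨i, hi⟩ (hM ⟨i, hi⟩)
        rw [hw', coeff_X_pow_mul', if_pos le_rfl, Nat.sub_self] at h1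
        exact h1
      · refine ⟨evt (D.F i) γ, by rw [dif_neg hi, pow_zero, one_mul], ?_⟩
        rw [hv0]
        exact hcell.unit i hi S x.1.1
    choose w hw1 hw2 using hw
    set s := ∑ i : I, D.a i * ((u i : ℕ) + 1) with hsdef
    have hprod : D.fser γ = PowerSeries.X ^ s * (C (algebraMap k S D.c) * ∏ i, w i ^ D.a i) := by
      have h1 : ∏ i, evt (D.F i) γ ^ D.a i = PowerSeries.X ^ s * ∏ i, w i ^ D.a i := by
        calc ∏ i, evt (D.F i) γ ^ D.a i = ∏ i, (PowerSeries.X ^
              (if h : i ∈ I then (u ⟨i, h⟩ : ℕ) + 1 else 0) * w i) ^ D.a i :=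
              Finset.prod_congr rfl fun i _ => by rw [hw1 i]
          _ = (∏ i, (PowerSeries.X : S⟦X⟧) ^ (D.a i *
              (if h : i ∈ I then (u ⟨i, h⟩ : ℕ) + 1 else 0))) * ∏ i, w i ^ D.a i := by
              rw [← Finset.prod_mul_distrib]
              refine Finset.prod_congr rfl fun i _ => ?_
              rw [mul_pow, ← pow_mul, mul_comm (D.a i)]
          _ = PowerSeries.X ^ s * ∏ i, w i ^ D.a i := by
              rw [Finset.prod_pow_eq_pow_sum]
              congr 2
              rw [hsdef]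
              have h2 : ∑ i, D.a i * (if h : i ∈ I then (u ⟨i, h⟩ : ℕ) + 1 else 0)
                  = ∑ i ∈ I, D.a i * (if h : i ∈ I then (u ⟨i, h⟩ : ℕ) + 1 else 0) := by
                symm
                apply Finset.sum_subset (Finset.subset_univ I)
                intro i _ hi
                rw [dif_neg hi, mul_zero]
              rw [h2, ← Finset.sum_coe_sort I]
              refine Finset.sum_congr rfl fun i _ => ?_
              rw [dif_pos i.2]
      rw [LP.fser, h1]
      ring
    have hunit : IsUnit (coeff 0 (C (algebraMap k S D.c) * ∏ i, w i ^ D.a i)) := by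
      rw [coeff_zero_eq_constantCoeff_apply, map_mul, map_prod]
      refine IsUnit.mul ?_ ?_
      · rw [constantCoeff_C]
        exact (isUnit_iff_ne_zero.2 hc).map (algebraMap k S)
      · rw [IsUnit.prod_univ_iff]
        intro i
        rw [map_pow, ← coeff_zero_eq_constantCoeff_apply]
        exact (hw2 i).pow _
    rcases lt_or_gt_of_ne hs with h | h
    · have h1 := heq s h.le
      rw [if_neg hs, hprod, coeff_X_pow_mul', if_pos le_rfl, Nat.sub_self] at h1
      rw [h1, isUnit_zero_iff] at hunit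
      exact hunit.symm
    · have h1 := heq D.M le_rfl
      rw [if_pos rfl, hprod, coeff_X_pow_mul', if_neg (by omega)] at h1
      exact h1.symm
  · -- some order is too large
    push Not at hM
    obtain ⟨i, hi⟩ := hM
    have h1 : (PowerSeries.X : S⟦X⟧) ^ (D.M + 1) ∣ D.fser γ := by
      have h2 : (PowerSeries.X : S⟦X⟧) ^ (D.M + 1) ∣ evt (D.F i) γ :=
        (pow_dvd_pow _ (by omega)).trans (hdvd i)
      rw [LP.fser]
      refine Dvd.dvd.mul_left ?_ _
      refine (h2.trans (dvd_pow_self _ (ha i).ne')).trans ?_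
      exact Finset.dvd_prod_of_mem (fun i => evt (D.F i) γ ^ D.a i) (Finset.mem_univ (i : ι))
    have h3 := heq D.M le_rfl
    rw [if_pos rfl, X_pow_dvd_iff.1 h1 D.M (Nat.lt_succ_self _)] at h3
    exact h3.symm

end Pool.Agent.Helper32_OMP.H93
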