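import Pool.Agent.Helper32_OMP.Stmts
import Pool.Agent.Helper70_Simp.Strata

/-!
# STR: stratification by the orders of finitely many series
-/

set_option autoImplicit false
set_option linter.unusedVariables false

namespace Pool.Agent.Helper32_OMP.H93

open PowerSeries Finset Pool.Agent.Helper6_Mono

theorem ords_iso {k : Type} [Field k] {β : Type} {wβ : β → QZ} (X : Over k QZ β wβ) {I : Type}
    {n : ℕ} (e : I ≃ Fin n) (N : ℕ) {wf : I → ℕ → QZ} (h : ∀ i j, NF X.F (wf i j))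
    (u : I → Fin (N + 1)) :
    OIso (Helper30_Simp.H70.strat X (fun (i : Fin n) (c : Fin N) => h (e.symm i) (c : ℕ))
      (fun i => u (e.symm i))) (ords X N h u) := by
  refine OIso.mk' (fun S _ _ p => ⟨p.1, fun i => ⟨fun j hj => ?_, fun hi => ?_⟩⟩)
    (fun S _ _ p => ⟨p.1, fun i => ⟨fun c hc => ?_, fun c hc => ?_⟩⟩)
    (fun S _ _ p => rfl) (fun S _ _ p => rfl) (fun φ c p => rfl) (fun S _ _ p b => rfl)
  · have h1 := (p.2 (e i)).1 ⟨j, by omega⟩ (by
      show j < ((u (e.symm (e i)) : Fin (N + 1)) : ℕ)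
      rw [Equiv.symm_apply_apply]
      exact hj)
    have h2 : (h (e.symm (e i)) j).fn p.1 = 0 := h1
    rwa [Equiv.symm_apply_apply] at h2
  · have h1 := (p.2 (e i)).2 ⟨(u i : ℕ), hi⟩ (by
      show ((u i : Fin (N + 1)) : ℕ) = ((u (e.symm (e i)) : Fin (N + 1)) : ℕ)
      rw [Equiv.symm_apply_apply])
    have h2 : IsUnit ((h (e.symm (e i)) (u i : ℕ)).fn p.1) := h1
    rwa [Equiv.symm_apply_apply] at h2
  · exact (p.2 (e.symm i)).1 c hc
  · have h1 : (c : ℕ) = u (e.symm i) := hc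
    have h2 := (p.2 (e.symm i)).2 (by rw [← h1]; exact c.2)
    show IsUnit ((h (e.symm i) (c : ℕ)).fn p.1)
    rw [h1]
    exact h2

theorem str : StrStmt := by
  intro k _ β wβ R _ L χ X hX I _ N wf h
  classical
  have hFT : ∀ u, FT (ords X N h u).F := by
    intro u
    obtain ⟨e, -⟩ := (ords_iso X (Fintype.equivFin I) N h u).symm
    exact FT.of_equiv e (Helper30_Simp.H70.FT.strat hX _ _)
  refine ⟨hFT, ?_⟩
  rw [Helper30_Simp.H70.stairs χ hX
      (fun (i : Fin (Fintype.card I)) (c : Fin N) => h ((Fintype.equivFin I).symm i) (c : ℕ)),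
    ← ((Fintype.equivFin I).arrowCongr (Equiv.refl (Fin (N + 1)))).sum_comp]
  refine Fintype.sum_congr _ _ fun u => ?_
  exact χ.iso (Helper30_Simp.H70.FT.strat hX _ _) (ords_iso X (Fintype.equivFin I) N h u)

end Pool.Agent.Helper32_OMP.H93
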